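import Mathlib

/-!
# A single sequence of trees that is `k`-universal for every `k`

The iterated coronas of the one-vertex tree (the binomial trees) have the property that, for every
`k` and every tree `S` on `k` vertices, a proportion of the `k`-subtrees bounded away from `0` is
isomorphic to `S`.
-/

open Filter

namespace Pool.Agent.Results.MP_f40460_co.UniversalTrees

open Classical in
/-- The set of `k`-subtrees of `T`: the `k`-element vertex sets `U` such that `T[U]` is
connected. -/
noncomputable def ksub {V : Type} [Fintype V] (k : ℕ) (T : SimpleGraph V) : Finset (Finset V) :=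
  (Finset.univ : Finset (Finset V)).filter
    (fun U : Finset V => U.card = k ∧ (T.induce (U : Set V)).Connected)

/-- `Z_k(T)`: the number of `k`-subtrees of `T`. -/
noncomputable def subtrees {V : Type} [Fintype V] (k : ℕ) (T : SimpleGraph V) : ℕ :=
  (ksub k T).card

open Classical in
/-- `c(S,T)`: the number of vertex sets `U` such that `T[U]` is isomorphic to `S`. -/
noncomputable def copies {W V : Type} [Fintype V] (S : SimpleGraph W) (T : SimpleGraph V) : ℕ :=
  ((Finset.univ : Finset (Finset V)).filter
    (fun U : Finset V => Nonempty (T.induce (U : Set V) ≃g S))).card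

/-- The entry of the `k`-profile of `T` at a tree `S` on `k` vertices. -/
noncomputable def profile {V : Type} [Fintype V] (k : ℕ) (T : SimpleGraph V)
    (S : SimpleGraph (Fin k)) : ℝ :=
  (copies S T : ℝ) / (subtrees k T : ℝ)

/-- A sequence of graphs (trees in the application) is `k`-universal: the graphs eventually have
at least `k` vertices and, for each tree `S` on `k` vertices, the limit inferior of the entry at
`S` of the `k`-profile is positive. -/
def KUniversal (k : ℕ) (V : ℕ → Type) [∀ n, Fintype (V n)] (T : ∀ n, SimpleGraph (V n)) : Prop :=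
  (∀ᶠ n in atTop, k ≤ Fintype.card (V n)) ∧
    ∀ S : SimpleGraph (Fin k), S.IsTree → 0 < liminf (fun n => profile k (T n) S) atTop

/-! ### Coronas -/

/-- The corona of a graph: a new leaf is attached to every vertex. -/
def corona {V : Type} (G : SimpleGraph V) : SimpleGraph (V × Bool) where
  Adj a b := (a.2 = false ∧ b.2 = false ∧ G.Adj a.1 b.1) ∨ (a.1 = b.1 ∧ a.2 ≠ b.2)
  symm := ⟨by
    rintro a b (⟨h1, h2, h3⟩ | ⟨h1, h2⟩)
    · exact Or.inl ⟨h2, h1, h3.symm⟩
    · exact Or.inr ⟨h1.symm, h2.symm⟩⟩
  loopless := ⟨by
    rintro a (⟨_, _, h⟩ | ⟨_, h⟩)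
    · exact G.loopless.irrefl _ h
    · exact h rfl⟩

/-- Vertex types of the iterated coronas of a point. -/
def BT : ℕ → Type
  | 0 => Unit
  | n + 1 => BT n × Bool

/-- The vertex types are finite. -/
noncomputable instance instFintypeBT : ∀ n, Fintype (BT n)
  | 0 => inferInstanceAs (Fintype Unit)
  | n + 1 => by
    haveI := instFintypeBT n
    exact inferInstanceAs (Fintype (BT n × Bool))

/-- The iterated coronas of a point (binomial trees). -/
def bt : ∀ n, SimpleGraph (BT n)
  | 0 => (⊥ : SimpleGraph Unit)
  | n + 1 => corona (bt n)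

lemma card_BT (n : ℕ) : Fintype.card (BT n) = 2 ^ n := by
  induction n with
  | zero => exact Fintype.card_unit
  | succ n ih =>
    have : Fintype.card (BT (n + 1)) = Fintype.card (BT n × Bool) := by
      apply Fintype.card_congr (Equiv.refl _)
    rw [this, Fintype.card_prod, ih, Fintype.card_bool, pow_succ]

/-- A graph is acyclic if its edges join a vertex to a parent of smaller rank. -/
lemma isAcyclic_of_par {V : Type} (G : SimpleGraph V) (par : V → V) (rk : V → ℕ)
    (h : ∀ a b, G.Adj a b → (b = par a ∧ rk b < rk a) ∨ (a = par b ∧ rk a < rk b)) :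
    G.IsAcyclic := by
  classical
  intro v c hc
  obtain ⟨a, ha, hmax⟩ := Finset.exists_max_image c.support.toFinset rk
    ⟨v, by simp⟩
  rw [List.mem_toFinset] at ha
  have hc' := hc.rotate ha
  have hsup : ∀ b ∈ (c.rotate a ha).support, rk b ≤ rk a := by
    intro b hb
    apply hmax
    rw [List.mem_toFinset]
    simpa using hb
  have key : ∀ b ∈ (c.rotate a ha).support, G.Adj a b → b = par a := by
    intro b hb hab
    rcases h a b hab with h1 | h1
    · exact h1.1
    · have := hsup b hb
      omega
  have h1 := key _ (SimpleGraph.Walk.getVert_mem_support _ _)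
    ((c.rotate a ha).adj_snd hc'.not_nil)
  have h2 := key _ (SimpleGraph.Walk.getVert_mem_support _ _)
    ((c.rotate a ha).adj_penultimate hc'.not_nil).symm
  exact hc'.snd_ne_penultimate (h1.trans h2.symm)

lemma corona_par {V : Type} {G : SimpleGraph V} (par : V → V) (rk : V → ℕ)
    (h : ∀ a b, G.Adj a b → (b = par a ∧ rk b < rk a) ∨ (a = par b ∧ rk a < rk b)) :
    ∃ (par : V × Bool → V × Bool) (rk : V × Bool → ℕ),
    ∀ a b, (corona G).Adj a b → (b = par a ∧ rk b < rk a) ∨ (a = par b ∧ rk a < rk b) := by
  refine ⟨fun a => if a.2 = true then (a.1, false) else (par a.1, false),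
      fun a => rk a.1 + if a.2 = true then 1 else 0, ?_⟩
  rintro ⟨a, s⟩ ⟨b, t⟩ (⟨h1, h2, h3⟩ | ⟨h1, h2⟩)
  · simp only at h1 h2 h3
    subst h1 h2
    rcases h a b h3 with ⟨h4, h5⟩ | ⟨h4, h5⟩
    · left
      subst h4
      simpa using h5
    · right
      subst h4
      simpa using h5
  · simp only at h1 h2
    subst h1
    cases s <;> cases t <;> simp at h2 ⊢

lemma bt_par (n : ℕ) : ∃ (par : BT n → BT n) (rk : BT n → ℕ),
    ∀ a b, (bt n).Adj a b → (b = par a ∧ rk b < rk a) ∨ (a = par b ∧ rk a < rk b) := by
  induction n with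
  | zero => exact ⟨id, fun _ => 0, fun a b h => h.elim⟩
  | succ n ih =>
    obtain ⟨par, rk, h⟩ := ih
    exact corona_par par rk h

lemma corona_connected {V : Type} {G : SimpleGraph V} (hG : G.Connected) :
    (corona G).Connected := by
  have hom : ∀ x y, G.Reachable x y → (corona G).Reachable (x, false) (y, false) := by
    rintro x y ⟨w⟩
    induction w with
    | nil => exact SimpleGraph.Reachable.refl _
    | cons hadj _ ih =>
      exact (SimpleGraph.Adj.reachable (Or.inl ⟨rfl, rfl, hadj⟩)).trans ih
  have leaf : ∀ x b, (corona G).Reachable (x, b) (x, false) := by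
    intro x b
    cases b with
    | false => exact SimpleGraph.Reachable.refl _
    | true => exact SimpleGraph.Adj.reachable (Or.inr ⟨rfl, by simp⟩)
  have := hG.nonempty
  refine ⟨?_⟩
  rintro ⟨x, b⟩ ⟨y, c⟩
  exact (leaf x b).trans ((hom x y (hG.preconnected x y)).trans (leaf y c).symm)

lemma bt_isTree (n : ℕ) : (bt n).IsTree := by
  refine ⟨?_, ?_⟩
  · induction n with
    | zero =>
      have : Nonempty (BT 0) := inferInstanceAs (Nonempty Unit)
      have : Subsingleton (BT 0) := inferInstanceAs (Subsingleton Unit)
      refine ⟨?_⟩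
      intro x y
      rw [Subsingleton.elim x y]
    | succ n ih => exact corona_connected ih
  · obtain ⟨par, rk, h⟩ := bt_par n
    exact isAcyclic_of_par _ par rk h

/-! ### The upper bound on the number of `k`-subtrees -/

section Upper

variable {V : Type} {G : SimpleGraph V}

/-- In a connected induced subgraph of the corona with at least two vertices, each leaf comes
with its support vertex. -/
lemma leaf_support {U : Set (V × Bool)} (hU : ((corona G).induce U).Connected)
    {p q : V × Bool} (hp : p ∈ U) (hq : q ∈ U) (hpq : p ≠ q) {x : V} (hx : (x, true) ∈ U) :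
    (x, false) ∈ U := by
  obtain ⟨r, hr, hrx⟩ : ∃ r ∈ U, r ≠ (x, true) := by
    by_cases h : p = (x, true)
    · exact ⟨q, hq, fun h' => hpq (h.trans h'.symm)⟩
    · exact ⟨p, hp, h⟩
  obtain ⟨w⟩ := hU.preconnected ⟨(x, true), hx⟩ ⟨r, hr⟩
  cases w with
  | nil => exact absurd rfl hrx
  | @cons _ v _ hadj _ =>
    rcases hadj with ⟨h1, _, _⟩ | ⟨h1, h2⟩
    · simp at h1
    · have h3 : (v : V × Bool) = (x, false) := by
        apply Prod.ext
        · exact h1.symm
        · simpa using h2
      rw [← h3]
      exact v.2

lemma base_connected {U : Set (V × Bool)} (hU : ((corona G).induce U).Connected)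
    {p q : V × Bool} (hp : p ∈ U) (hq : q ∈ U) (hpq : p ≠ q) :
    (G.induce {x | (x, false) ∈ U}).Connected := by
  have hmem : ∀ a : U, a.1.1 ∈ {x | (x, false) ∈ U} := by
    rintro ⟨⟨x, b⟩, hx⟩
    cases b with
    | false => exact hx
    | true => exact leaf_support hU hp hq hpq hx
  have key : ∀ (a b : U), ((corona G).induce U).Walk a b →
      (G.induce {x | (x, false) ∈ U}).Reachable ⟨a.1.1, hmem a⟩ ⟨b.1.1, hmem b⟩ := by
    intro a b w
    induction w with
    | nil => exact SimpleGraph.Reachable.refl _
    | @cons a c b hadj _ ih =>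
      refine SimpleGraph.Reachable.trans ?_ ih
      rcases hadj with ⟨_, _, h3⟩ | ⟨h1, _⟩
      · exact SimpleGraph.Adj.reachable h3
      · have : (⟨a.1.1, hmem a⟩ : {x | (x, false) ∈ U}) = ⟨c.1.1, hmem c⟩ := Subtype.ext h1
        rw [this]
  have : Nonempty {x | (x, false) ∈ U} := ⟨⟨p.1, hmem ⟨p, hp⟩⟩⟩
  refine ⟨?_⟩
  rintro ⟨x, hx⟩ ⟨y, hy⟩
  obtain ⟨w⟩ := hU.preconnected ⟨(x, false), hx⟩ ⟨(y, false), hy⟩
  exact key _ _ w

end Upper

lemma mem_ksub {V : Type} [Fintype V] {k : ℕ} {T : SimpleGraph V} {U : Finset V} :
    U ∈ ksub k T ↔ U.card = k ∧ (T.induce (U : Set V)).Connected := by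
  classical
  unfold ksub
  simp

open Classical in
/-- Recursion for the number of `k`-subtrees of a corona. -/
lemma subtrees_corona {V : Type} [Fintype V] (G : SimpleGraph V) {k : ℕ} (hk : 2 ≤ k) :
    subtrees k (corona G) ≤ subtrees k G + ∑ j ∈ Finset.range k, subtrees j G * 2 ^ j := by
  have hsub : ksub k (corona G) ⊆ (ksub k G).image (fun U => U ×ˢ {false}) ∪
        (Finset.range k).biUnion (fun j => (ksub j G).biUnion (fun U =>
          U.powerset.image (fun P => U ×ˢ {false} ∪ P ×ˢ {true}))) := by
    intro U hU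
    rw [mem_ksub] at hU
    obtain ⟨hcard, hconn⟩ := hU
    obtain ⟨p, hp, q, hq, hpq⟩ := Finset.one_lt_card.mp (by omega : 1 < U.card)
    set U0 : Finset V := Finset.univ.filter (fun x => (x, false) ∈ U) with hU0
    set U1 : Finset V := Finset.univ.filter (fun x => (x, true) ∈ U) with hU1
    have h10 : U1 ⊆ U0 := by
      intro x hx
      simp only [hU1, hU0, Finset.mem_filter, Finset.mem_univ, true_and] at hx ⊢
      exact leaf_support hconn hp hq hpq hx
    have hconn0 : (G.induce (U0 : Set V)).Connected := by
      have h := base_connected hconn hp hq hpq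
      have heq : {x | (x, false) ∈ (U : Set (V × Bool))} = (U0 : Set V) := by
        ext x
        simp [hU0]
      rw [heq] at h
      exact h
    have hdec : U = U0 ×ˢ {false} ∪ U1 ×ˢ {true} := by
      ext ⟨x, b⟩
      cases b <;> simp [hU0, hU1]
    have hcard2 : U.card = U0.card + U1.card := by
      conv_lhs => rw [hdec]
      rw [Finset.card_union_of_disjoint]
      · simp
      · rw [Finset.disjoint_left]
        rintro ⟨x, b⟩ h1 h2
        simp only [Finset.mem_product, Finset.mem_singleton] at h1 h2
        rw [h1.2] at h2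
        simp at h2
    rw [Finset.mem_union]
    by_cases hz : U1 = ∅
    · left
      rw [Finset.mem_image]
      refine ⟨U0, ?_, ?_⟩
      · rw [mem_ksub]
        refine ⟨?_, hconn0⟩
        rw [hz] at hcard2
        simpa using hcard2.symm.trans hcard
      · rw [hdec, hz]
        simp
    · right
      have hpos : 0 < U1.card := Finset.card_pos.mpr (Finset.nonempty_iff_ne_empty.mpr hz)
      rw [Finset.mem_biUnion]
      refine ⟨U0.card, Finset.mem_range.mpr (by omega), ?_⟩
      rw [Finset.mem_biUnion]
      refine ⟨U0, ?_, ?_⟩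
      · rw [mem_ksub]
        exact ⟨rfl, hconn0⟩
      · rw [Finset.mem_image]
        exact ⟨U1, Finset.mem_powerset.mpr h10, hdec.symm⟩
  have hle := Finset.card_le_card hsub
  refine le_trans hle (le_trans (Finset.card_union_le _ _) ?_)
  refine add_le_add Finset.card_image_le (le_trans Finset.card_biUnion_le ?_)
  refine Finset.sum_le_sum (fun j _ => ?_)
  refine le_trans Finset.card_biUnion_le ?_
  have : ∀ U ∈ ksub j G,
      (U.powerset.image (fun P => U ×ˢ {false} ∪ P ×ˢ {true})).card ≤ 2 ^ j := by
    intro U hU
    refine le_trans Finset.card_image_le ?_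
    rw [Finset.card_powerset]
    rw [mem_ksub] at hU
    rw [hU.1]
  refine le_trans (Finset.sum_le_sum this) ?_
  rw [Finset.sum_const, smul_eq_mul]
  exact le_refl _

open Classical in
lemma subtrees_zero {V : Type} [Fintype V] (G : SimpleGraph V) : subtrees 0 G = 0 := by
  unfold subtrees
  rw [Finset.card_eq_zero, Finset.eq_empty_iff_forall_notMem]
  intro U hU
  rw [mem_ksub] at hU
  obtain ⟨h1, h2⟩ := hU
  rw [Finset.card_eq_zero] at h1
  subst h1
  obtain ⟨x⟩ := h2.nonempty
  simpa using x.2

open Classical in
lemma subtrees_one_le {V : Type} [Fintype V] (G : SimpleGraph V) :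
    subtrees 1 G ≤ Fintype.card V := by
  unfold subtrees
  refine le_trans (Finset.card_le_card (t := Finset.univ.image (fun x : V => ({x} : Finset V))) ?_)
    (le_trans Finset.card_image_le (le_of_eq Finset.card_univ))
  intro U hU
  rw [mem_ksub] at hU
  obtain ⟨x, hx⟩ := Finset.card_eq_one.mp hU.1
  rw [Finset.mem_image]
  exact ⟨x, Finset.mem_univ _, hx.symm⟩

lemma subtrees_bt_le (k : ℕ) : ∃ C : ℕ, ∀ n, subtrees k (bt n) ≤ C * 2 ^ n := by
  induction k using Nat.strong_induction_on with
  | _ k ih =>
    rcases Nat.lt_or_ge k 2 with hk | hk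
    · interval_cases k
      · exact ⟨0, fun n => by rw [subtrees_zero]; simp⟩
      · exact ⟨1, fun n => by
          have := subtrees_one_le (bt n)
          rw [card_BT] at this
          simpa using this⟩
    · choose! C hC using ih
      set D : ℕ := ∑ j ∈ Finset.range k, C j * 2 ^ j with hD
      set A : ℕ := subtrees k (bt 0) with hA
      refine ⟨A + D, ?_⟩
      have key : ∀ n, subtrees k (bt n) + D ≤ (A + D) * 2 ^ n := by
        intro n
        induction n with
        | zero => simp [hA]
        | succ n ihn =>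
          have h1 : subtrees k (bt (n + 1)) ≤
              subtrees k (bt n) + ∑ j ∈ Finset.range k, subtrees j (bt n) * 2 ^ j :=
            subtrees_corona (bt n) hk
          have h2 : ∑ j ∈ Finset.range k, subtrees j (bt n) * 2 ^ j ≤ D * 2 ^ n := by
            rw [hD, Finset.sum_mul]
            refine Finset.sum_le_sum (fun j hj => ?_)
            have := hC j (Finset.mem_range.mp hj) n
            calc subtrees j (bt n) * 2 ^ j ≤ (C j * 2 ^ n) * 2 ^ j := Nat.mul_le_mul_right _ this
              _ = C j * 2 ^ j * 2 ^ n := by ring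
          have h3 : 1 ≤ 2 ^ n := Nat.one_le_two_pow
          calc subtrees k (bt (n + 1)) + D ≤ (subtrees k (bt n) + D) + D * 2 ^ n := by omega
            _ ≤ (A + D) * 2 ^ n + D * 2 ^ n := Nat.add_le_add_right ihn _
            _ ≤ (A + D) * 2 ^ n + (A + D) * 2 ^ n := by
              apply Nat.add_le_add_left
              exact Nat.mul_le_mul_right _ (Nat.le_add_left _ _)
            _ = (A + D) * 2 ^ (n + 1) := by ring
      intro n
      exact le_trans (Nat.le_add_right _ _) (key n)

/-! ### The lower bound on the number of copies -/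

/-- Vertex sets inducing a copy are the ranges of embeddings. -/
lemma nonempty_iso_iff {W V : Type} (S : SimpleGraph W) (T : SimpleGraph V) (U : Set V) :
    Nonempty (T.induce U ≃g S) ↔ ∃ f : S ↪g T, Set.range f = U := by
  constructor
  · rintro ⟨e⟩
    refine ⟨(SimpleGraph.Embedding.induce U).comp e.symm.toEmbedding, ?_⟩
    ext x
    constructor
    · rintro ⟨w, rfl⟩
      exact (e.symm w).2
    · intro hx
      exact ⟨e ⟨x, hx⟩, by simp⟩
  · rintro ⟨f, rfl⟩
    refine ⟨SimpleGraph.Iso.symm ⟨Equiv.ofInjective f f.injective, ?_⟩⟩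
    intro a b
    simp

open Classical in
/-- Extending copies of `S` minus a leaf in `G` to copies of `S` in the corona. -/
lemma copies_corona {W V : Type} [Fintype V] (S : SimpleGraph W) (G : SimpleGraph V) (u v : W)
    (huv : S.Adj v u) (huniq : ∀ w, S.Adj v w → w = u) :
    copies (S.induce {v}ᶜ) G ≤ copies S (corona G) := by
  have huv' : u ≠ v := huv.ne'
  have hcopy : ∀ U : Finset V, Nonempty (G.induce (U : Set V) ≃g S.induce ({v}ᶜ : Set W)) →
      ∃ x : V, Nonempty ((corona G).induce
        ((insert (x, true) (U ×ˢ {false}) : Finset (V × Bool)) : Set (V × Bool)) ≃g S) := by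
    intro U hU
    rw [nonempty_iso_iff] at hU
    obtain ⟨f, hf⟩ := hU
    refine ⟨f ⟨u, huv'⟩, ?_⟩
    rw [nonempty_iso_iff]
    let g : W → V × Bool := fun w => if h : w = v then (f ⟨u, huv'⟩, true) else (f ⟨w, h⟩, false)
    have gv : g v = (f ⟨u, huv'⟩, true) := by simp [g]
    have gw : ∀ w (h : w ≠ v), g w = (f ⟨w, h⟩, false) := by
      intro w h
      simp [g, h]
    have hinj : Function.Injective g := by
      intro a b hab
      by_cases ha : a = v <;> by_cases hb : b = v
      · rw [ha, hb]
      · rw [ha, gv, gw b hb] at hab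
        simp at hab
      · rw [hb, gv, gw a ha] at hab
        simp at hab
      · rw [gw a ha, gw b hb] at hab
        have := f.injective (Prod.ext_iff.mp hab).1
        exact congrArg Subtype.val this
    have hadj : ∀ a b, (corona G).Adj (g a) (g b) ↔ S.Adj a b := by
      have h1 : ∀ b, b ≠ v → ((corona G).Adj (g v) (g b) ↔ S.Adj v b) := by
        intro b hb
        rw [gv, gw b hb]
        constructor
        · rintro (⟨h, _, _⟩ | ⟨h, _⟩)
          · simp at h
          · have := f.injective h
            have h2 : u = b := congrArg Subtype.val this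
            rw [← h2]
            exact huv
        · intro h
          have h2 := huniq b h
          subst h2
          exact Or.inr ⟨rfl, by simp⟩
      intro a b
      by_cases ha : a = v <;> by_cases hb : b = v
      · subst ha
        subst hb
        simp
      · subst ha
        exact h1 b hb
      · subst hb
        rw [SimpleGraph.adj_comm, h1 a ha, SimpleGraph.adj_comm]
      · rw [gw a ha, gw b hb]
        have hfadj : G.Adj (f ⟨a, ha⟩) (f ⟨b, hb⟩) ↔ S.Adj a b := f.map_adj_iff
        rw [← hfadj]
        constructor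
        · rintro (⟨_, _, h⟩ | ⟨_, h⟩)
          · exact h
          · exact absurd rfl h
        · intro h
          exact Or.inl ⟨rfl, rfl, h⟩
    refine ⟨⟨⟨g, hinj⟩, fun {a b} => hadj a b⟩, ?_⟩
    ext ⟨y, b⟩
    constructor
    · rintro ⟨w, hw⟩
      change g w = (y, b) at hw
      by_cases h : w = v
      · subst h
        rw [gv] at hw
        rw [← hw]
        simp
      · rw [gw w h] at hw
        rw [← hw]
        have : f ⟨w, h⟩ ∈ (U : Set V) := hf ▸ Set.mem_range_self _
        simpa using this
    · intro h
      rw [Finset.mem_coe, Finset.mem_insert] at h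
      rcases h with h | h
      · exact ⟨v, by rw [h]; exact gv⟩
      · rw [Finset.mem_product, Finset.mem_singleton] at h
        obtain ⟨h1, h2⟩ := h
        simp only at h1 h2
        subst h2
        have : y ∈ Set.range f := by
          rw [hf]
          exact h1
        obtain ⟨⟨w, hw⟩, hwy⟩ := this
        exact ⟨w, by rw [← hwy]; exact gw w hw⟩
  rcases isEmpty_or_nonempty V with hV | hV
  · have : copies (S.induce {v}ᶜ) G = 0 := by
      unfold copies
      rw [Finset.card_eq_zero, Finset.filter_eq_empty_iff]
      rintro U - ⟨e⟩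
      exact hV.elim (e.symm ⟨u, huv'⟩).1
    rw [this]
    exact Nat.zero_le _
  choose! x hx using hcopy
  unfold copies
  refine Finset.card_le_card_of_injOn
    (fun U => insert (x U, true) (U ×ˢ {false})) ?_ ?_
  · intro U hU
    simp only [Finset.coe_filter, Finset.mem_univ, true_and, Set.mem_ofPred_eq] at hU ⊢
    exact hx U hU
  · intro U _ U' _ h
    simp only at h
    ext y
    have h1 : (y, false) ∈ (insert (x U, true) (U ×ˢ {false}) : Finset (V × Bool)) ↔ y ∈ U := by
      simp
    have h2 : (y, false) ∈ (insert (x U', true) (U' ×ˢ {false}) : Finset (V × Bool)) ↔ y ∈ U' := by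
      simp
    rw [← h1, ← h2, h]

open Classical in
lemma copies_one {W V : Type} [Fintype V] [Fintype W] (S : SimpleGraph W)
    (hW : Fintype.card W = 1) (G : SimpleGraph V) : Fintype.card V ≤ copies S G := by
  obtain ⟨w, hw⟩ := Fintype.card_eq_one_iff.mp hW
  have : (Finset.univ.image (fun x : V => ({x} : Finset V))).card = Fintype.card V := by
    rw [Finset.card_image_of_injective _ Finset.singleton_injective, Finset.card_univ]
  rw [← this]
  unfold copies
  refine Finset.card_le_card ?_
  intro U hU
  rw [Finset.mem_image] at hU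
  obtain ⟨x, -, rfl⟩ := hU
  simp only [Finset.mem_filter, Finset.mem_univ, true_and]
  rw [nonempty_iso_iff]
  refine ⟨⟨⟨fun _ => x, ?_⟩, ?_⟩, ?_⟩
  · intro a b _
    rw [hw a, hw b]
  · intro a b
    have : a = b := (hw a).trans (hw b).symm
    subst this
    simp
  · ext y
    constructor
    · rintro ⟨z, hz⟩
      have hz' : x = y := hz
      simp [hz']
    · intro h
      rw [Finset.mem_coe, Finset.mem_singleton] at h
      exact ⟨w, h.symm⟩

lemma copies_bt (k : ℕ) : ∀ (W : Type) [Fintype W] (S : SimpleGraph W), S.IsTree →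
    Fintype.card W = k + 1 → ∀ n, k ≤ n → 2 ^ (n - k) ≤ copies S (bt n) := by
  classical
  induction k with
  | zero =>
    intro W _ S _ hW n _
    have := copies_one S hW (bt n)
    rw [card_BT] at this
    simpa using this
  | succ k ih =>
    intro W _ S hS hW n hn
    obtain ⟨m, rfl⟩ : ∃ m, n = m + 1 := ⟨n - 1, by omega⟩
    have : Nontrivial W := by
      rw [← Fintype.one_lt_card_iff_nontrivial]
      omega
    obtain ⟨v, hv⟩ := hS.exists_vert_degree_one_of_nontrivial
    obtain ⟨u, huv, huniq⟩ := SimpleGraph.degree_eq_one_iff_existsUnique_adj.mp hv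
    have hS' : (S.induce ({v}ᶜ : Set W)).IsTree :=
      ⟨hS.connected.induce_compl_singleton_of_degree_eq_one hv, hS.isAcyclic.induce _⟩
    have hcard : Fintype.card ({v}ᶜ : Set W) = k + 1 := by
      rw [Fintype.card_compl_set]
      simp [hW]
    have h1 := ih _ (S.induce ({v}ᶜ : Set W)) hS' hcard m (by omega)
    have h2 := copies_corona S (bt m) u v huv (fun w hw => huniq w hw)
    have h3 : m + 1 - (k + 1) = m - k := by omega
    rw [h3]
    exact le_trans h1 h2

open Classical in
lemma copies_le_subtrees {V : Type} [Fintype V] {k : ℕ} (S : SimpleGraph (Fin k))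
    (hS : S.IsTree) (T : SimpleGraph V) : copies S T ≤ subtrees k T := by
  unfold copies subtrees
  refine Finset.card_le_card ?_
  intro U hU
  rw [mem_ksub]
  simp only [Finset.mem_filter, Finset.mem_univ, true_and] at hU
  obtain ⟨e⟩ := hU
  refine ⟨?_, (SimpleGraph.Iso.connected_iff e).mpr hS.connected⟩
  have := Fintype.card_congr e.toEquiv
  simpa using this

/-- **There is a single sequence of trees that is `k`-universal for every `k ≥ 1`.** -/
theorem result : ∃ (V : ℕ → Type) (_ : ∀ n, Fintype (V n)) (T : ∀ n, SimpleGraph (V n)),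
    (∀ n, (T n).IsTree) ∧ ∀ k : ℕ, 1 ≤ k → KUniversal k V T := by
  refine ⟨BT, instFintypeBT, bt, bt_isTree, ?_⟩
  intro k hk
  obtain ⟨m, rfl⟩ : ∃ m, k = m + 1 := ⟨k - 1, by omega⟩
  refine ⟨?_, ?_⟩
  · filter_upwards [eventually_ge_atTop (m + 1)] with n hn
    rw [card_BT]
    exact le_trans hn (Nat.lt_two_pow_self).le
  · intro S hS
    obtain ⟨C, hC⟩ := subtrees_bt_le (m + 1)
    have hev : ∀ᶠ n in atTop, (1 / (2 ^ m * (C + 1)) : ℝ) ≤ profile (m + 1) (bt n) S := by
      filter_upwards [eventually_ge_atTop m] with n hn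
      have h1 : 2 ^ (n - m) ≤ copies S (bt n) := copies_bt m (Fin (m + 1)) S hS (by simp) n hn
      have h2 := hC n
      have h3 := copies_le_subtrees S hS (bt n)
      have hpos : 0 < subtrees (m + 1) (bt n) :=
        lt_of_lt_of_le (by positivity) (le_trans h1 h3)
      unfold profile
      rw [div_le_div_iff₀ (by positivity) (by exact_mod_cast hpos)]
      have h4 : (2 : ℝ) ^ n = 2 ^ (n - m) * 2 ^ m := by
        rw [← pow_add]
        congr 1
        omega
      have h1' : (2 : ℝ) ^ (n - m) ≤ copies S (bt n) := by exact_mod_cast h1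
      have h2' : (subtrees (m + 1) (bt n) : ℝ) ≤ C * 2 ^ n := by exact_mod_cast h2
      calc (1 : ℝ) * subtrees (m + 1) (bt n) ≤ C * 2 ^ n := by linarith
        _ ≤ (C + 1) * 2 ^ n := by
          apply mul_le_mul_of_nonneg_right _ (by positivity)
          linarith
        _ = 2 ^ (n - m) * (2 ^ m * (C + 1)) := by rw [h4]; ring
        _ ≤ copies S (bt n) * (2 ^ m * (C + 1)) := by
          apply mul_le_mul_of_nonneg_right h1' (by positivity)
    have hbdd : IsCoboundedUnder (· ≥ ·) atTop (fun n => profile (m + 1) (bt n) S) := by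
      apply IsBoundedUnder.isCoboundedUnder_ge
      refine ⟨1, ?_⟩
      rw [eventually_map]
      refine Eventually.of_forall (fun n => ?_)
      unfold profile
      have h3 := copies_le_subtrees S hS (bt n)
      exact div_le_one_of_le₀ (by exact_mod_cast h3) (by positivity)
    exact lt_of_lt_of_le (by positivity) (le_liminf_of_le hbdd hev)

end Pool.Agent.Results.MP_f40460_co.UniversalTrees
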